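import Pool.Agent.Helper99.WP.Stat

/-!
# WP, part K: static balanced elliptic environments (exact statements of the packets)

Notation in the proofs: `L u = lap p u` (mean over the neighbours minus the value), `|·|∞` the maximum norm on `Z^d`, `Q r y` the cube `{z : |z - y|∞ ≤ r}`, with `(2r+1)^d` points, whose
neighbours are in `Q (r+1) y`; `G_D f = Gr p D f` solves `- L (G_D f) = f` in `D`, `G_D f = 0` off `D`.  `Ell κ p` implies `d ≥ 1` and `κ ≤ 1/(2d)`.  `C`, `c` are constants depending only on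
`d`, `κ` (and on the further parameters quantified before them).
-/

open Finset

namespace Pool.Agent.Helper99.WP

open Pool.Agent.Helper99.ERW

/-- PACKET MXP.  Maximum principle.  Suppose the maximum `M` of `u` on `D` is positive.  Among the points of `D` with `u = M` choose `x` with `x 0` (first coordinate, `d ≥ 1`) maximal.  All neighbours `z`
satisfy `u z ≤ M` (in `D` by definition, off `D` because `u z ≤ 0 < M`), so all terms of `0 ≤ lap p u x` are `≤ 0`, hence `= 0`, and `p x 0 > 0` gives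
`u (x + e_0) = u (x - e_0) = M`.  If `x + e_0 ∈ D` this contradicts the choice of `x`, otherwise `u (x + e_0) ≤ 0 < M`. -/
def MXP_stmt : Prop := ∀ (d : ℕ) (κ : ℝ) (p : Site d → Fin d → ℝ), 0 < κ → Ell κ p →
  ∀ (D : Finset (Site d)) (u : Site d → ℝ), (∀ x ∈ D, 0 ≤ lap p u x) →
    Bd D (fun x => u x ≤ 0) → ∀ x ∈ D, u x ≤ 0

/-- PACKET GEX (may assume MXP).  Existence and uniqueness of `Gr`.  Uniqueness: MXP for the difference of two solutions and for its negative.  Existence: the linear map on `{x // x ∈ D} → ℝ` sending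
`v` (extended by `0`) to `x ↦ lap p v x` is injective (uniqueness), hence surjective (`LinearMap.injective_iff_surjective`, finite dimension). -/
def GEX_stmt : Prop := ∀ (d : ℕ) (κ : ℝ) (p : Site d → Fin d → ℝ), 0 < κ → Ell κ p →
  ∀ (D : Finset (Site d)) (f : Site d → ℝ), IsSol p D f (Gr p D f) ∧ ∀ u, IsSol p D f u → u = Gr p D f

/-- PACKET GCM (may assume MXP, GEX).  Rules for `Gr`.  (1), (2): MXP for `u - G_D f`, resp. `G_D f - u` (`lap` is linear, `G_D f = 0` off `D`).  (3), (4): from (1), (2).  (5): uniqueness.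
(6): `G_{D'} f` is `≥ 0` by (4), so (2) for `u = G_{D'} f` on `D`.  (7): `ind s = ∑_{y∈s} ind {y}` and linearity (induction on `s`). -/
def GCM_stmt : Prop := ∀ (d : ℕ) (κ : ℝ) (p : Site d → Fin d → ℝ), 0 < κ → Ell κ p →
  ∀ (D : Finset (Site d)),
  (∀ f u : Site d → ℝ, (∀ x ∈ D, - lap p u x ≤ f x) → Bd D (fun x => u x ≤ 0) →
    ∀ x ∈ D, u x ≤ Gr p D f x) ∧
  (∀ f u : Site d → ℝ, (∀ x ∈ D, f x ≤ - lap p u x) → Bd D (fun x => 0 ≤ u x) →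
    ∀ x ∈ D, Gr p D f x ≤ u x) ∧
  (∀ f g : Site d → ℝ, (∀ x ∈ D, f x ≤ g x) → ∀ x, Gr p D f x ≤ Gr p D g x) ∧
  (∀ f : Site d → ℝ, (∀ x ∈ D, 0 ≤ f x) → ∀ x, 0 ≤ Gr p D f x) ∧
  (∀ (f g : Site d → ℝ) (a b : ℝ),
    Gr p D (fun x => a * f x + b * g x) = fun x => a * Gr p D f x + b * Gr p D g x) ∧
  (∀ D' : Finset (Site d), D ⊆ D' → ∀ f : Site d → ℝ, (∀ x ∈ D', 0 ≤ f x) →
    ∀ x, Gr p D f x ≤ Gr p D' f x) ∧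
  ∀ (s : Finset (Site d)) (x : Site d), Gr p D (ind s) x = ∑ y ∈ s, gg p D x y

/-- PACKET QQQ.  Cubes.  `mem`: `Finset.mem_Icc`, `Pi.le_def`.  `card`: `Pi.card_Icc`, `Int.card_Icc`.  The neighbours of points of `Q r y` are in `Q (r+1) y`; inclusion of cubes by the triangle
inequality; symmetry. -/
def QQQ_stmt : Prop := ∀ (d : ℕ),
  (∀ (r : ℕ) (y z : Site d), z ∈ Q r y ↔ ∀ l, |z l - y l| ≤ (r : ℤ)) ∧
  (∀ (r : ℕ) (y : Site d), (Q r y).card = (2 * r + 1) ^ d) ∧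
  (∀ (r : ℕ) (y z : Site d), z ∈ Q r y → ∀ l, z + ev l ∈ Q (r + 1) y ∧ z - ev l ∈ Q (r + 1) y) ∧
  (∀ (r : ℕ) (y z : Site d), z ∈ Q r y ↔ y ∈ Q r z) ∧
  (∀ (r s : ℕ) (x y : Site d), x ∈ Q s y → Q r x ⊆ Q (r + s) y) ∧
  ∀ (r s : ℕ) (y : Site d), r ≤ s → Q r y ⊆ Q s y

/-- PACKET ABP (may assume GEX, GCM, QQQ).  Discrete Aleksandrov-Bakelman-Pucci estimate.  Let `v = G_D f ≥ 0`, `M = v z0 > 0` its maximum, `z0 ∈ D`.  Let `q ∈ R^d`, `|q|∞ < M/(2d(R+1))`.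
For `z ∈ Q (R+1) y \ D`: `v z = 0` and `|q·(z - z0)| ≤ d |q|∞ (2R+1) < M`, so `v z - q·(z - z0) < M`, the value at `z0`; so the maximum of `z ↦ v z - q·(z - z0)` over
`Q (R+1) y` is attained at some `z ∈ D`; comparing with the neighbours `z ± e_l ∈ Q (R+1) y`: `v(z+e_l) - v z ≤ q_l ≤ v z - v(z-e_l)`.  Hence the open cube `{|q|∞ < M/(2d(R+1))}` of volume
`(M/(d(R+1)))^d` is contained in the union over `z ∈ D` of the boxes `∏_l [v(z+e_l) - v z, v z - v(z-e_l)]` (`Set.Icc`); a nonempty box has all `w_l = 2 v z - v(z+e_l) - v(z-e_l) ≥ 0`, and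
`∑_l p z l w_l = f z` gives `κ w_l ≤ f z`, so its volume is at most `(f z/κ)^d` (`Real.volume_Icc_pi`, `measure_biUnion_finset_le`).  So `(M/(d(R+1)))^d ≤ ∑_{z∈D} (f z/κ)^d`. -/
def ABP_stmt : Prop := ∀ (d : ℕ) (κ : ℝ) (p : Site d → Fin d → ℝ), 0 < κ → Ell κ p →
  ∀ (R : ℕ) (y : Site d) (D : Finset (Site d)), D ⊆ Q R y → ∀ f : Site d → ℝ, (∀ x, 0 ≤ f x) →
    ∀ x, (κ * Gr p D f x) ^ d ≤ ((d : ℝ) * (R + 1)) ^ d * ∑ z ∈ D, f z ^ d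

/-- PACKET EXT (may assume GEX, GCM, QQQ).  Exit times.  `s(z) = ∑_l (z_l - y_l)²` satisfies `L s = ∑_l 2 p z l = 1`.  (1) `u = d(r+1)² - s`: `- L u = 1`, `u ≥ 0` on `Q (r+1) y`, GCM (2) on `D`
(off `D` the left side is `0`).  (2) `u = (r+1)² - s` is `≤ 0` at the points of `Q (r+1) y` off `Q r y` (one coordinate difference has absolute value `r+1`): GCM (1). -/
def EXT_stmt : Prop := ∀ (d : ℕ) (κ : ℝ) (p : Site d → Fin d → ℝ), 0 < κ → Ell κ p →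
  ∀ (r : ℕ) (y : Site d),
  (∀ D : Finset (Site d), D ⊆ Q r y → ∀ z, Gr p D (fun _ => 1) z ≤ d * ((r : ℝ) + 1) ^ 2) ∧
  ∀ z ∈ Q r y, ((r : ℝ) + 1) ^ 2 - ∑ l, ((z l - y l : ℤ) : ℝ) ^ 2 ≤ Gr p (Q r y) (fun _ => 1) z

/-- PACKET BAR (may assume MXP, QQQ).  Barrier: from `Q (lam (r+1)) y` the cube `Q r y` is hit before the exit from `Q (K(r+1)) y` with probability `≥ c`.  `K = d lam + 1`.  Write `s = r + 1`, `y = 0`.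
CASE `s² ≥ 1/κ`: `α = 1/(2κ)`, `φ(z) = exp(-α|z|²/s²)` (Euclidean norm).  `L φ(z) = φ(z) ∑_l p_l [e^{-α/s²}(e^{2αz_l/s²} + e^{-2αz_l/s²}) - 2]`; by `e^x + e^{-x} ≥ 2 + x²` and
`e^{-α/s²} ≥ 1 - α/s² ≥ 1/2`, the bracket is `≥ - 2α/s² + 2α²z_l²/s⁴`, so `L φ ≥ φ (α/s²)(2ακ|z|²/s² - 1) ≥ 0` for `|z| ≥ s` (`∑ 2 p_l = 1`, `p_l ≥ κ`), in particular off `Q r`.
On `D = Q (Ks) \ Q r` apply MXP to `(φ - e^{-αK²}) - u`: on `Q r` `φ ≤ 1 ≤ u`; at the neighbours off `Q (Ks)`, `|z| ≥ |z|∞ > Ks`, `φ ≤ e^{-αK²}`, `u ≥ 0`.  For `z ∈ Q (lam s)`: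
`u ≥ e^{-αd lam²} - e^{-αK²} > 0` as `K² > d lam²` (and `u ≥ 1` on `Q r`).
CASE `s² < 1/κ`: for `z ∈ Q (Ks) \ Q r`, `L u(z) ≤ 0` gives `u z ≥ κ u z'` for each neighbour `z'`; take the neighbour with smaller `|z|_1`: by induction
`u z ≥ κ^{|z|_1} ≥ κ^m` for `z ∈ Q (lam s)`, `m ≥ d lam s`; `s < κ^{-1/2}` is bounded. -/
def BAR_stmt : Prop := ∀ (d : ℕ) (κ : ℝ), 0 < κ → ∀ lam : ℕ, ∃ (K : ℕ) (c : ℝ), 0 < c ∧
  ∀ p : Site d → Fin d → ℝ, Ell κ p → ∀ (r : ℕ) (y : Site d) (u : Site d → ℝ),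
  (∀ z ∈ Q (K * (r + 1)) y, z ∉ Q r y → lap p u z ≤ 0) →
  (∀ z ∈ Q (K * (r + 1) + 1) y, 0 ≤ u z) → (∀ z ∈ Q r y, 1 ≤ u z) →
  ∀ z ∈ Q (lam * (r + 1)) y, c ≤ u z

/-- PACKET DNS (may assume GEX, GCM, QQQ, ABP, EXT, BAR).  A set filling almost all of a cube is visited for a long time.  `ε = min(1/2, (κ/(8d))^d)`.  For `x ∈ Q r' y`, `r' = r/(2d)` (integer division):
`G_{Q r y} 1_A (x) = G 1 (x) - G 1_{Q∖A}(x) ≥ (r+1)² - |x-y|² - (r+1)²/4 ≥ (r+1)²/2`: EXT, `|x-y|² ≤ d r'² ≤ (r+1)²/4`, and by ABP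
`(κ G 1_{Q∖A})^d ≤ (d(r+1))^d ε (2r+1)^d`, so `G 1_{Q∖A} ≤ (2d/κ) ε^{1/d} (r+1)² ≤ (r+1)²/4` (compare `d`-th powers).  Then `u = G_{Q(K(r+1))y} 1_A / ((r+1)²/2)` is `≥ 1` on `Q r' y` (monotonicity in
the domain), `≥ 0` and superharmonic (`L u ≤ 0`) in `Q (K(r+1)) y`; BAR for `r'` and `lam' = 2 d lam` (`r + 1 ≤ 2d(r'+1)`), with its `K`, `c`. -/
def DNS_stmt : Prop := ∀ (d : ℕ) (κ : ℝ), 0 < κ → ∀ lam : ℕ, ∃ (K : ℕ) (ε c : ℝ), 0 < ε ∧ ε < 1 ∧ 0 < c ∧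
  ∀ p : Site d → Fin d → ℝ, Ell κ p → ∀ (r : ℕ) (y : Site d) (A : Finset (Site d)), A ⊆ Q r y →
  (1 - ε) * (Q r y).card ≤ A.card → ∀ z ∈ Q (lam * (r + 1)) y,
    c * ((r : ℝ) + 1) ^ 2 ≤ Gr p (Q (K * (r + 1)) y) (ind A) z

/-- PACKET CMP (may assume MXP, GEX, GCM, QQQ, EXT, DNS).  Parent cubes.  DNS with `lam = 5` gives `K1, ε, c1`; `δ = 1 - ε`, `K = K1 + 4`, `P = Q (3r+1) y`, `B = Q (K1(r+1)) y'`
(we may take `K1 ≥ 5`, monotonicity).  `y' ∈ Q (2r+1) y`, `P ⊆ Q (5(r+1)) y'`, `B ⊆ Q (K(r+1)) y ⊆ D`.  On `P`: `G_B 1_{A∩P} ≥ G_B 1_{A ∩ Q r y'} ≥ c1 (r+1)²` and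
`G_B 1_P ≤ G_B 1 ≤ C2 (r+1)²`, `C2 = d(K1+1)²` (EXT).  Put `c = min(1, c1/(2 C2))`, `f = G_D 1_{A∩P} - c G_D 1_P`; suppose `f < 0` somewhere.  `f = 0` off `D` and `L f = 0` on `D∖P`, so by MXP
(for `-m - f` on `D∖P`) the minimum `-m < 0` of `f` over `D` is attained at some `z0 ∈ P`.  The function `f - (G_B 1_{A∩P} - c G_B 1_P) + m` is harmonic in `B` (`P ⊆ B ⊆ D`) and `≥ 0` off `B`, so it is
`≥ 0` at `z0`: `-m ≥ c1 (r+1)² - c C2 (r+1)² - m > -m`, a contradiction. -/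
def CMP_stmt : Prop := ∀ (d : ℕ) (κ : ℝ), 0 < κ → ∃ (K : ℕ) (δ c : ℝ), 0 < δ ∧ δ < 1 ∧ 0 < c ∧ c ≤ 1 ∧
  ∀ p : Site d → Fin d → ℝ, Ell κ p → ∀ (D A : Finset (Site d)) (r : ℕ) (y y' : Site d),
  Q r y' ⊆ Q (3 * r + 1) y → Q (K * (r + 1)) y ⊆ D → δ * (Q r y').card < (A ∩ Q r y').card →
  ∀ z, c * Gr p D (ind (Q (3 * r + 1) y)) z ≤ Gr p D (ind (A ∩ Q (3 * r + 1) y)) z

/-- Radii of triadic cubes: sides `3 ^ j`. -/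
def rr : ℕ → ℕ
  | 0 => 0
  | j + 1 => 3 * rr j + 1

/-- PACKET CZS (may assume GEX, GCM, QQQ, EXT, CMP).  One Calderón-Zygmund step.  `K, δ, c` from CMP (`K ≥ 1` without loss).  (a) Induction on `j` (for all `y`, `D`, `A`).  `j = 0`: `card A ≤ δ < 1`, `A = ∅`,
`B = ∅`.  `j + 1`: `Q (rr (j+1)) y` is the disjoint union of the `3^d` cubes `Q (rr j) (y + (2 rr j + 1) v)`, `v ∈ {-1,0,1}^d` (coordinatewise), and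
`Q (K(rr j + 1)) (y + (2 rr j + 1) v) ⊆ Q (K (rr (j+1) + 1)) y ⊆ D`.  If `δ card(child) < card (A ∩ child)` for some child, take `B = Q (rr (j+1)) y`: the first claim is the hypothesis on `A`, the
second one is CMP (`r = rr j`, `y' =` the centre of the child, `A ∩ B = A`).  Otherwise apply the induction hypothesis to `A ∩ child` for each child, and take the union of the `B`'s (disjoint;
`ind` of a disjoint union is the sum, GCM (5)).  (b) CMP with `r = rr j`, `y' = y` gives `G_D 1_A ≥ c G_D 1_{Q (3r+1) y}`, and for `z ∈ Q r y`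
`G_D 1_{Q (3r+1) y} (z) ≥ G_{Q (2r+1) z} 1 (z) ≥ (2r+2)²` (`Q (2r+1) z ⊆ Q (3r+1) y ⊆ D` if `K ≥ 3`, which we may assume; GCM (6), (3); EXT (2) at the centre). -/
def CZS_stmt : Prop := ∀ (d : ℕ) (κ : ℝ), 0 < κ → ∃ (K : ℕ) (δ c : ℝ), 0 < δ ∧ δ < 1 ∧ 0 < c ∧ c < 1 ∧
  ∀ p : Site d → Fin d → ℝ, Ell κ p → ∀ (j : ℕ) (y : Site d) (D A : Finset (Site d)),
  Q (K * (rr j + 1)) y ⊆ D → A ⊆ Q (rr j) y →
  ((A.card : ℝ) ≤ δ * (Q (rr j) y).card →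
    ∃ B : Finset (Site d), B ⊆ Q (rr j) y ∧ (A.card : ℝ) ≤ δ * B.card ∧
      ∀ z, c * Gr p D (ind B) z ≤ Gr p D (ind A) z) ∧
  (δ * (Q (rr j) y).card < (A.card : ℝ) →
    ∀ z ∈ Q (rr j) y, c * ((rr j : ℝ) + 1) ^ 2 ≤ Gr p D (ind A) z)

/-- PACKET OCC (may assume GEX, GCM, QQQ, CZS).  Occupation of sets of positive density.  `K1, δ, c1` from CZS.  Step 1, with `D ⊇ Q (K1 (rr j + 1)) y`: for all `k`, if `A ⊆ Q (rr j) y` and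
`card A > δ^{k+1} card Q`, then `G_D 1_A ≥ c1^{k+1} (rr j + 1)²` on `Q (rr j) y`.  Induction on `k`: if `card A > δ card Q`, CZS (b) (`c1 ≥ c1^{k+1}`); otherwise `k ≥ 1` and CZS (a) gives `B` with
`card B ≥ card A/δ > δ^k card Q`; the induction hypothesis for `B`.  Step 2: given `r`, let `j` be minimal with `r ≤ rr j`; then `rr j ≤ 3 r`, `card Q (rr j) ≤ 3^d card Q r`.  Let
`ρ' = card A/card Q (rr j) ≥ 3^{-d} ρ`, `ρ = card A/card Q r` (if `A = ∅` the claim is trivial), `k` minimal with `δ^{k+1} < ρ'`: `k = 0` or `δ^k ≥ ρ'`, so with `γ = log c1/log δ > 0`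
(`c1 = δ^γ`): `c1^{k+1} ≥ c1 ρ'^γ ≥ c1 3^{-dγ} ρ^γ`.  `K = 3 K1`, `c = c1 3^{-dγ}`. -/
def OCC_stmt : Prop := ∀ (d : ℕ) (κ : ℝ), 0 < κ → ∃ (K : ℕ) (c γ : ℝ), 0 < c ∧ 0 < γ ∧
  ∀ p : Site d → Fin d → ℝ, Ell κ p → ∀ (r : ℕ) (y : Site d) (A : Finset (Site d)), A ⊆ Q r y →
  ∀ z ∈ Q r y, c * ((A.card : ℝ) / (Q r y).card) ^ γ * ((r : ℝ) + 1) ^ 2 ≤
    Gr p (Q (K * (r + 1)) y) (ind A) z

/-- PACKET HIT (may assume MXP, GEX, GCM, QQQ, EXT, OCC).  Growth lemma.  `K, c0, γ` from OCC, `D = Q (K(r+1)) y`, `v = G_D 1_A ≤ G_D 1 ≤ C (r+1)²` with `C = d(K+1)²` (EXT).  On `D \ A`: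
`u - (t/(C(r+1)²)) v` is superharmonic (`L v = 0` there); on `A`: `u ≥ t ≥ t v/(C(r+1)²)`; off `D`: `v = 0 ≤ u`.  MXP: `u ≥ t v/(C(r+1)²) ≥ (c0/C) ρ^γ t` on `Q r y`
(`Q r y ⊆ D` if `K ≥ 1`; off `D` `v = 0`, so anyway the inequality `u ≥ t v/(C(r+1)^2)` holds on `Q (K(r+1)+1) y`; for `z ∈ Q r y` outside `D` OCC forces the left side to be `≤ 0`). -/
def HIT_stmt : Prop := ∀ (d : ℕ) (κ : ℝ), 0 < κ → ∃ (K : ℕ) (c γ : ℝ), 0 < c ∧ 0 < γ ∧ 1 ≤ K ∧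
  ∀ p : Site d → Fin d → ℝ, Ell κ p → ∀ (r : ℕ) (y : Site d) (u : Site d → ℝ) (A : Finset (Site d))
  (t : ℝ), 0 ≤ t → A ⊆ Q r y → (∀ z ∈ Q (K * (r + 1)) y, lap p u z ≤ 0) →
  (∀ z ∈ Q (K * (r + 1) + 1) y, 0 ≤ u z) → (∀ z ∈ A, t ≤ u z) →
  ∀ z ∈ Q r y, c * ((A.card : ℝ) / (Q r y).card) ^ γ * t ≤ u z

/-- PACKET HRN (may assume QQQ, HIT).  HARNACK INEQUALITY.  `K0, c, γ` from HIT; `K = 2 K0` (and `≥ 2`).  Adding a constant `ε' > 0` to `u` and letting `ε' → 0`, assume `m = min_{Q R y} u > 0`, attained at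
`z1 ∈ Q R y`.  (i) For `s > 0` let `N_s = {z ∈ Q (2R+1) y : u z ≥ s}`: HIT on `Q (2R+1) y` at `z1`: `c (card N_s/card Q (2R+1))^γ s ≤ m`, i.e. `card N_s ≤ (m/(c s))^{1/γ} (4R+3)^d`.
(ii) `δ(z) = 2(R+1) - |z - y|∞ ≥ 1` on `Q (2R+1) y`, `β = γ d`.  Let `z*` maximize `u(z) δ(z)^β` over `Q (2R+1) y`, `t = u(z*) > 0`, `δ = δ(z*)`.  CLAIM: `card N_{t/2} ≥ c2 δ^d`.  Let `φ0 = c (1/2)^γ` (may assume
`≤ 1`), `θ = φ0/2`, `η ∈ (0,1)` with `(1-η)^{-β} ≤ 1 + θ/2`.  If `η δ < K0 + 1`: `card N_{t/2} ≥ 1 ≥ (η δ/(K0+1))^d`.  Otherwise let `r + 1 = ⌊(η δ - 1)/K0⌋ ≥ 1`, so `K0(r+1) + 1 ≤ η δ` and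
`r + 1 ≥ (η δ - 1)/(2K0) ≥ c δ`.  For `z ∈ Q (K0(r+1)+1) z*`: `δ(z) ≥ (1-η) δ > 0`, so `z ∈ Q (2R+1) y` and `u z ≤ t (1-η)^{-β} ≤ M := (1+θ/2) t`.  If `A = {z ∈ Q r z* : u z < t/2}` had
`card A ≥ card Q r/2`, HIT for `M - u` (harmonic, `≥ 0` on `Q (K0(r+1)+1) z*`, `≥ t/2` on `A`) at `z*` would give `(θ/2) t = M - u(z*) ≥ φ0 t/2 = θ t`, a contradiction.  So
`card N_{t/2} ≥ (2r+1)^d/2 ≥ (r+1)^d/2 ≥ c2 δ^d`.  (iii) With (i): `c2 δ^d ≤ (2m/(c t))^{1/γ} (4(R+1))^d`, i.e. `t δ^β ≤ C m (R+1)^β`.  For `z ∈ Q R y`: `δ(z) ≥ R + 1`, so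
`u(z) (R+1)^β ≤ u(z) δ(z)^β ≤ t δ^β ≤ C m (R+1)^β`. -/
def HRN_stmt : Prop := ∀ (d : ℕ) (κ : ℝ), 0 < κ → ∃ (K : ℕ) (C : ℝ), 1 ≤ K ∧ 1 ≤ C ∧
  ∀ p : Site d → Fin d → ℝ, Ell κ p → ∀ (R : ℕ) (y : Site d) (u : Site d → ℝ),
  (∀ z ∈ Q (K * (R + 1)) y, lap p u z = 0) → (∀ z ∈ Q (K * (R + 1) + 1) y, 0 ≤ u z) →
  ∀ z ∈ Q R y, ∀ z' ∈ Q R y, u z ≤ C * u z'

/-- PACKET SHL (may assume GEX, GCM, QQQ, HIT, HRN).  The Green function near its pole is bounded below by its values at distance `~ r`.  `K1, C1` from HRN, `K2, c2, γ` from HIT; `r0 = 2 K1`, `b0 = 4 K2 + 3`.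
`u = gg p (Q (b r) x) · x` is `≥ 0` everywhere, superharmonic in `Q (b r) x` and harmonic there off `x`.  Let `ρ + 1 = r/K1` (integer division, `≥ 2`), so `K1(ρ+1) ≤ r`; the cube `Q (K1(ρ+1)) z0` is
contained in `Q (3r) x ⊆ Q (b r) x` and does not contain `x` (`|z0 - x|∞ > r`): HRN: `u ≥ u(z0)/C1` on `Q ρ z0 ⊆ Q (3r) x`.  HIT on `Q (3r) x` with `A = Q ρ z0`, `t = u(z0)/C1`
(`K2(3r+1) ≤ b r`): `u ≥ c2 ((2ρ+1)/(6r+1))^{dγ} u(z0)/C1` on `Q (3r) x`, and `(2ρ+1)/(6r+1) ≥ (ρ+1)/(7r) ≥ 1/(14 K1)`. -/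
def SHL_stmt : Prop := ∀ (d : ℕ) (κ : ℝ), 0 < κ → ∃ (b0 r0 : ℕ) (c : ℝ), 0 < c ∧ 1 ≤ r0 ∧
  ∀ b : ℕ, b0 ≤ b → ∀ p : Site d → Fin d → ℝ, Ell κ p → ∀ (r : ℕ), r0 ≤ r → ∀ x z0 z : Site d,
  z0 ∈ Q (2 * r) x → z0 ∉ Q r x → z ∈ Q (3 * r) x →
  c * gg p (Q (b * r) x) z0 x ≤ gg p (Q (b * r) x) z x

/-- PACKET TEL (may assume GEX, GCM).  `w = gg p D' · x - gg p D · x` satisfies `L w = 0` in `D` (both have `- L = ind {x}` there) and `w = gg p D' · x` off `D`.  GCM (1) and (2) with `f = 0` for `w - m`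
(constants are harmonic; `Gr p D 0 = 0`), at `x ∈ D`. -/
def TEL_stmt : Prop := ∀ (d : ℕ) (κ : ℝ) (p : Site d → Fin d → ℝ), 0 < κ → Ell κ p →
  ∀ (D D' : Finset (Site d)) (x : Site d) (m : ℝ), D ⊆ D' → x ∈ D →
  (Bd D (fun z => m ≤ gg p D' z x) → gg p D x x + m ≤ gg p D' x x) ∧
  (Bd D (fun z => gg p D' z x ≤ m) → gg p D' x x ≤ gg p D x x + m)

/-- PACKET SCU (may assume GEX, GCM, QQQ, EXT, HRN, TEL).  One scale, upper bound on the average.  `u_x = gg p (Q (b r) x) · x ≥ 0`.  CLAIM: for `z0 ∈ Q (r+1) x \ Q r x`,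
`u_x(z0) ≤ (C/r^d) ∑_{z ∈ Q (3r) x} u_x(z)`.  `K1, C1` from HRN.  If `r ≥ K1`, let `ρ + 1 = r/K1` (integer division): `Q (K1(ρ+1)) z0` does not contain `x` and is contained in
`Q (2r+1) x ⊆ Q (b r) x` (`r ≥ 1`, `b ≥ 3`), so by HRN `u_x(z0) ≤ C1 u_x(z)` for `z ∈ Q ρ z0 ⊆ Q (3r) x`; average over `Q ρ z0`, `card ≥ (ρ+1)^d ≥ (r/(2K1))^d`.  If `r < K1`:
`u_x(z0) ≤ ∑_z u_x(z) ≤ (K1/r)^d ∑_z u_x(z)`.  By TEL (all neighbours off `Q r x` are such `z0`), `gg p (Q (b r) x) x x - gg p (Q r x) x x ≤ (C/r^d) ∑_{z∈Q (3r) x} u_x(z)`.  Sum over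
`x ∈ Q R 0`; then `z ∈ Q (R+3r) 0`, and exchange: for fixed `z`, `∑_{x ∈ Q R 0, z ∈ Q (3r) x} gg p (Q (b r) x) z x ≤ ∑_{x ∈ Q (3r) z} gg p (Q ((b+3) r) z) z x
= G_{Q ((b+3) r) z} 1_{Q (3r) z} (z) ≤ d ((b+3) r + 1)²` (`Q (b r) x ⊆ Q ((b+3) r) z`, GCM (6), (7), (3), EXT) `≤ d (b+4)² r²`. -/
def SCU_stmt : Prop := ∀ (d : ℕ) (κ : ℝ), 0 < κ → ∀ b : ℕ, 3 ≤ b → ∃ C : ℝ, 0 ≤ C ∧
  ∀ p : Site d → Fin d → ℝ, Ell κ p → ∀ (R r : ℕ), 1 ≤ r →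
  ∑ x ∈ Q R (0 : Site d), (gg p (Q (b * r) x) x x - gg p (Q r x) x x) ≤
    C * (r : ℝ) ^ 2 / (r : ℝ) ^ d * (Q (R + 3 * r) (0 : Site d)).card

/-- PACKET D3 (may assume GEX, GCM, QQQ, EXT, SCU).  TRACE BOUND.  `b = 3`.  Let `m` be minimal with `3^m ≥ 2R + 1`; for `x ∈ Q R 0`: `Q R 0 ⊆ Q (2R) x ⊆ Q (3^m) x`, so
`gg p (Q R 0) x x ≤ gg p (Q (3^m) x) x x = gg p (Q 1 x) x x + ∑_{k<m} (gg p (Q (3·3^k) x) x x - gg p (Q (3^k) x) x x)`; the first term is `≤ 4d` (EXT); sum over `x` with SCU (`r = 3^k ≤ 2R` if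
`k < m`, `R ≥ 1`; `card Q (R+3r) ≤ card Q (7R) ≤ 7^d card Q R`; if `R = 0` then `m = 0`): `≤ (4d + C 7^d ∑_k 3^{k(2-d)}) card Q R`, and `3^{k(2-d)} ≤ 3^{-k}` for `d ≥ 3`. -/
def D3_stmt : Prop := ∀ (d : ℕ), 3 ≤ d → ∀ κ : ℝ, 0 < κ → ∃ C : ℝ, 0 ≤ C ∧
  ∀ p : Site d → Fin d → ℝ, Ell κ p → ∀ R : ℕ,
  ∑ x ∈ Q R (0 : Site d), gg p (Q R 0) x x ≤ C * (Q R (0 : Site d)).card

/-- PACKET SCL (may assume GEX, GCM, QQQ, OCC, SHL, TEL).  One scale, lower bound, for a set `A` of density `≥ ρ`.  `K, c0, γ` from OCC, `b0, r0, c1` from SHL; `b = max(b0, 3K + 2)`.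
`S_r(x) = Q (2r) x \ Q r x`, `(2/5) card Q (2r) ≤ card S_r ≤ card Q (2r) ≤ (5 r)^d` (`(2r+1)/(4r+1) ≤ 3/5`, `r ≥ 1`, `d ≥ 1`).  SHL with all `z0 ∈ S_r(x)` and `z ∈ Q (r+1) x \ Q r x` (`⊆ Q (3r) x`), averaged
over `z0`, and TEL: `gg p (Q (b r) x) x x - gg p (Q r x) x x ≥ c1/(5r)^d ∑_{z ∈ S_r(x)} gg p (Q (b r) x) z x`.  Sum over `x ∈ A` and exchange (`z ∈ S_r(x)` iff `x ∈ S_r(z)`;
`Q ((b-2) r) z ⊆ Q (b r) x`): `≥ c1/(5r)^d ∑_{z ∈ Q (R+2r) 0} G_{Q ((b-2) r) z} 1_{A ∩ S_r(z)} (z) ≥ c1/(5r)^d ∑_z c0 (card (A ∩ S_r(z))/card Q (2r))^γ (2r+1)²` (OCC for the cube `Q (2r) z`;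
`K(2r+1) ≤ 3 K r ≤ (b-2) r`).  Counting: `∑_z card (A ∩ S_r(z)) = card A card S_r ≥ (2/5) ρ card Q R card Q (2r)`; with `ρ1 = (ρ/5) 3^{-d}` and `card Q (R+2r) ≤ 3^d card Q R` (`r ≤ R`), the number of `z`
with `card (A ∩ S_r(z)) ≥ ρ1 card Q (2r)` is at least `((2/5) ρ - ρ1 3^d) card Q R = (ρ/5) card Q R`.  So the sum is `≥ c1/(5r)^d (ρ/5) card Q R c0 ρ1^γ 4 r²`. -/
def SCL_stmt : Prop := ∀ (d : ℕ) (κ ρ : ℝ), 0 < κ → 0 < ρ → ∃ (b r0 : ℕ) (c : ℝ), 0 < c ∧ 2 ≤ b ∧ 1 ≤ r0 ∧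
  ∀ p : Site d → Fin d → ℝ, Ell κ p → ∀ (R r : ℕ), r0 ≤ r → r ≤ R → ∀ A : Finset (Site d),
  A ⊆ Q R 0 → ρ * (Q R (0 : Site d)).card ≤ A.card →
  c * (r : ℝ) ^ 2 / (r : ℝ) ^ d * (Q R (0 : Site d)).card ≤
    ∑ x ∈ A, (gg p (Q (b * r) x) x x - gg p (Q r x) x x)

/-- PACKET D2 (may assume GEX, GCM, QQQ, SCL).  LOWER BOUND IN THE PLANE.  `b, r0, c` from SCL for `ρ/2`; may assume `ρ ≤ 1`.  Choose `n` with `n c ≥ M` and `R` with `R ≥ (16/ρ) b^n r0` and `R ≥ b^n r0`; put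
`s = b^n r0` and `A' = A ∩ Q (R - s) 0`: `card Q R - card Q (R-s) ≤ 4 s (2R+1) ≤ (ρ/2) (2R+1)²`, so `card A' ≥ (ρ/2) card Q R`.  For `x ∈ A'`: `Q s x ⊆ Q R 0`, so
`gg p (Q R 0) x x ≥ gg p (Q s x) x x = gg p (Q r0 x) x x + ∑_{k<n} (gg p (Q (b·b^k r0) x) x x - gg p (Q (b^k r0) x) x x)`; the first term is `≥ 0`; sum over `x ∈ A'` with SCL
(`r = b^k r0`, `d = 2`): `≥ n c card Q R ≥ M card Q R`; the terms with `x ∈ A \ A'` are `≥ 0`. -/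
def D2_stmt : Prop := ∀ (κ ρ M : ℝ), 0 < κ → 0 < ρ → ∃ R : ℕ,
  ∀ p : Site 2 → Fin 2 → ℝ, Ell κ p → ∀ A : Finset (Site 2), A ⊆ Q R 0 →
  ρ * (Q R (0 : Site 2)).card ≤ A.card →
  M * (Q R (0 : Site 2)).card ≤ ∑ x ∈ A, gg p (Q R 0) x x

end Pool.Agent.Helper99.WP
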