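import Pool.Agent.Helper99.WP.GoalsW
import Pool.Agent.Helper99.WP.GoalsK

/-!
# WP, part E: the excited walk, its stacks of arrows, and the conclusion (exact statements of the packets)

Notation in the proofs: `Λ` a finite set of sites, `V = Λ` (as a type), `W = arrW ω Λ`, `pr = prb W N`, `n* = nst (ext a)` for the arrows `a` chosen with probability `pr a`.
-/

open Finset MeasureTheory ProbabilityTheory Filter

namespace Pool.Agent.Helper99.WP

open Pool.Agent.Helper99.ERW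

universe u

/-- PACKET LN1 (may assume MTT, MXP, GEX, GCM).  The static chain of the current cookies.  (1) `2 d κ ≤ ∑_e ω z e i = 1`, so `d ≥ 1`, `κ ≤ 1/(2d)`; the sum over the directions is
`∑_l (ω z (l,true) i + ω z (l,false) i)` (`Fintype.sum_prod_type`), and the environment is balanced.  (2) exchange the sums; each direction leads to exactly one `c : Option Λ`.  (3) With
`w = rowW W N n`, `p = pst ω Λ n` and `v : Λ → ℝ` extended by `0` to `v' : Site d → ℝ`: `((1 - Tmat w) v) y = - lap p v' y` if `n y < N`, and `= v y` if `n y = N` (zero row).  So the kernel is trivial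
(MXP on `D = {y ∈ Λ : n y < N}` for `v'` and `- v'`), the determinant is not `0`, and it is `DD w` (MTT; rows of `rowW` sum to `1`).  (4) `v = Gmat w · x` (column): `(1 - Tmat w) v = e_x`.  On `D`:
`- lap p v' = ind {x}`; on `Λ \ D`: `v = ind {x}`; off `Λ`: `0`.  So `v' ≥ 0` (MXP for `- v'` on `D`), and `v' ≤ g = gg p Λ · x` by MXP for `v' - g` on `D`: off `D`, `g ≥ 0`, and `g x ≥ 1`
(`g x = 1 +` mean of `g`, as `- lap p g x = 1`).  If `D = Λ` then `v' = g` (GEX). -/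
def LN1_stmt : Prop := ∀ (d : ℕ) (κ : ℝ) (ω : Env d) (Λ : Finset (Site d)) (N : ℕ) (n : Λ → ℕ),
  0 < κ → Okk κ ω → (∀ y, n y ≤ N) →
  Ell κ (pst ω Λ n) ∧ IsW (arrW ω Λ) ∧ DD (rowW (arrW ω Λ) N n) ≠ 0 ∧
  ∀ x : Λ, 0 ≤ Gmat (rowW (arrW ω Λ) N n) x x ∧
    Gmat (rowW (arrW ω Λ) N n) x x ≤ gg (pst ω Λ n) Λ x x ∧
    ((∀ y, n y < N) → Gmat (rowW (arrW ω Λ) N n) x x = gg (pst ω Λ n) Λ x x)

/-- PACKET UPR (may assume TRM, KEY, PR1, LN1, D3).  `d ≥ 3`.  By KEY (its hypothesis is LN1), `∑_{i ≤ N} vis W N x i = ∑_a pr a · Gmat (rowW W N n*) x x` (`n* x ≤ N`, TRM) `≤ ∑_a pr a · gg (pst ω Λ n*) Λ x x`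
with `Λ = Q R 0`; sum over `x ∈ Λ`, D3, and `∑_a pr a = 1`. -/
def UPR_stmt : Prop := ∀ (d : ℕ), 3 ≤ d → ∀ κ : ℝ, 0 < κ → ∃ C : ℝ, 0 ≤ C ∧
  ∀ ω : Env d, Okk κ ω → ∀ R N : ℕ,
  ∑ x : (Q R (0 : Site d) : Finset (Site d)), ∑ i ∈ Finset.range (N + 1),
    vis (arrW ω (Q R 0)) N x i ≤ C * (Q R (0 : Site d)).card

/-- PACKET DCY (may assume TRM, KEY, PR1, LN1, GEX, GCM, QQQ, EXT).  Exponential decay.  `Λ = Q R 0`, `C = d (R+1)²`.  For `i ≤ N`: by KEY and LN1 (`gg p Λ x x ≤ G_Λ 1 (x) ≤ C`, EXT, GCM (3)),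
`vis i = E[Gmat x x ; n* x = i] ≤ C P(n* x = i) = C (vis i - vis (i+1))`.  So `vis (i+1) ≤ (1 - 1/C) vis i` (`C ≥ 1`; `C > 0` since `d ≥ 1`), and induct. -/
def DCY_stmt : Prop := ∀ (d : ℕ) (κ : ℝ) (ω : Env d), 0 < κ → Okk κ ω → ∀ (R N : ℕ)
  (x : (Q R (0 : Site d) : Finset (Site d))) (i : ℕ), i ≤ N →
  vis (arrW ω (Q R 0)) N x i ≤ (1 - 1 / ((d : ℝ) * (R + 1) ^ 2)) ^ i

/-- PACKET LWR (may assume TRM, KEY, PR1, LN1, DCY, D2).  The plane.  `R` from D2 with `ρ/4` (so also for sets of density `≥ ρ/2`) and `M = 4(J+1)/ρ`; `Λ = Q R 0`; `N ≥ J` with `card Λ (1 - 1/C)^N ≤ ρ/4`, `C = 2(R+1)²`.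
Let `A = {x : n* x < J}` (random).  Suppose `E card A = ∑_x (1 - vis J) > ρ card Λ`.  Then `P(card A ≥ (ρ/2) card Λ) ≥ ρ/2`; `P(n* y = N for some y) ≤ ∑_y vis N ≤ ρ/4` (DCY).  So with
probability `≥ ρ/4`: `card A ≥ (ρ/2) card Λ` and `n* < N`, and then `∑_{x∈A} Gmat x x = ∑_{x∈A} gg (pst ω Λ n*) Λ x x ≥ M card Λ` (LN1, D2 for the image of `A` in `Site 2`).  Since `Gmat x x ≥ 0`:
`E ∑_{x∈A} Gmat x x ≥ (ρ/4) M card Λ = (J+1) card Λ`.  But by KEY `E ∑_{x∈A} Gmat x x = ∑_x ∑_{i<J} vis i ≤ J card Λ` (`i < J ≤ N`), a contradiction (`card Λ > 0`). -/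
def LWR_stmt : Prop := ∀ (κ ρ : ℝ) (J : ℕ), 0 < κ → 0 < ρ → ∃ R N : ℕ,
  ∀ ω : Env 2, Okk κ ω →
  ∑ x : (Q R (0 : Site 2) : Finset (Site 2)), (1 - vis (arrW ω (Q R 0)) N x J) ≤
    ρ * (Q R (0 : Site 2)).card

/-- PACKET ARW.  The arrow probabilities multiply up to the path probability of the excited walk: factor by factor, `arrW ω Λ (π k) (cnt π k) (some (π (k+1))) = stepProb ω π k`
(`cnt π k = pastVisits π k` because the coercion `Λ → Site d` is injective; the conditions `x (k+1) = x k + vec e` and `x k + vec e = x (k+1)` are the same). -/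
def ARW_stmt : Prop := ∀ (d : ℕ) (ω : Env d) (Λ : Finset (Site d)) (π : ℕ → Λ) (m : ℕ),
  (∏ k ∈ Finset.range m, arrW ω Λ (π k) (cnt π k) (some (π (k + 1)))) =
    pathProb ω (fun k => (π k : Site d)) m

/-- PACKET VMS (may assume VEX, ARW).  Measurability of `ω ↦ vis (arrW ω Λ) N x i`: finite sums and products of coordinates of `ω` (directly from the definition: `arrW ω Λ y k c` is a finite sum of
coordinates; `vis` is a finite sum over `a` of products times a constant). -/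
def VMS_stmt : Prop := ∀ (d : ℕ) (Λ : Finset (Site d)) (N : ℕ) (x : Λ) (i : ℕ),
  Measurable (fun ω : Env d => vis (arrW ω Λ) N x i)

/-- PACKET SHF.  Stationarity: `pathProb ω π m = pathProb (shift x ω) (π - x) m` (`shift x ω (π k - x) = ω (π k)`, `pastVisits` unchanged, the condition `π (k+1) = π k + vec e` unchanged), and
`P.map (shift x) = P` (`lintegral_map`, `shift x` is measurable). -/
def SHF_stmt : Prop := ∀ (d : ℕ) (P : Measure (Env d)), (∀ x, P.map (shift x) = P) →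
  ∀ (π : ℕ → Site d) (m : ℕ) (x : Site d),
  ∫⁻ ω, ENNReal.ofReal (pathProb ω π m) ∂P =
    ∫⁻ ω, ENNReal.ofReal (pathProb ω (fun k => π k - x) m) ∂P

/-- PACKET VCY (may assume VEX, ARW, LN1).  For `P`-almost every `ω` cookie environment (`IsW (arrW ω Λ)` by the argument of LN1 (2), which needs only `IsCookieEnv`), VEX and ARW give `vis` as a finite sum
of path probabilities; integrate (`lintegral_finset_sum`, `measurable_pathProb`, nonnegativity), SHF, and `IsERW.lintegral_cyl` with `g = 1`: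
`∫⁻ vis = ∑_{m ≤ N card Λ} ∑_{π admissible} μ (cyl X (π - x) m)`, where admissible means: `π_0 = x`, `π_m = x`, `cnt (exN π) m = i`, and `cnt (exN π) k < N` for `k < m`. (May assume SHF.) -/
def VCY_stmt : Prop := ∀ (d : ℕ) (Ω : Type u) (_ : MeasurableSpace Ω) (P : Measure (Env d))
  [IsProbabilityMeasure P] (μ : Measure Ω) [IsProbabilityMeasure μ] (env : Ω → Env d)
  (X : ℕ → Ω → Site d), IsERW P μ env X → (∀ᵐ ω ∂P, IsCookieEnv ω) → (∀ x, P.map (shift x) = P) →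
  ∀ (Λ : Finset (Site d)) (N : ℕ) (x : Λ) (i : ℕ),
  ∫⁻ ω, ENNReal.ofReal (vis (arrW ω Λ) N x i) ∂P =
    ∑ m ∈ Finset.range (N * Fintype.card Λ + 1), ∑ π : Fin (m + 1) → Λ,
      if exN π 0 = x ∧ exN π m = x ∧ cnt (exN π) m = i ∧ ∀ k < m, cnt (exN π) k < N then
        μ (cyl X (fun k => ((exN π k : Λ) : Site d) - x) m) else 0

/-- PACKET VLE (may assume VCY).  The cylinders in VCY for a given `m` are pairwise disjoint for different `π`, and contained in `AtV X i m` (`X_m = 0`, `pastVisits = cnt (exN π) m = i`); the sets `AtV X i m`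
are disjoint for different `m` (`pastVisits` of a later visit is larger).  So the sum is at most `∑_m μ (AtV X i m) = μ (AtI X i)` (measurability: `IsERW.measurable_walk`). -/
def VLE_stmt : Prop := ∀ (d : ℕ) (Ω : Type u) (_ : MeasurableSpace Ω) (P : Measure (Env d))
  [IsProbabilityMeasure P] (μ : Measure Ω) [IsProbabilityMeasure μ] (env : Ω → Env d)
  (X : ℕ → Ω → Site d), IsERW P μ env X → (∀ᵐ ω ∂P, IsCookieEnv ω) → (∀ x, P.map (shift x) = P) →
  ∀ (Λ : Finset (Site d)) (N : ℕ) (x : Λ) (i : ℕ),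
  ∫⁻ ω, ENNReal.ofReal (vis (arrW ω Λ) N x i) ∂P ≤ μ (AtI X i)

/-- PACKET VGE (may assume VCY).  Almost surely `X_0 = 0` and all steps are unit steps (`IsERW.ae_exists_step`), so `X_k + x ∈ Q M x ⊆ Λ` for `k ≤ M`.  For `m ≤ M` the event `AtV X i m` is (up to a null set)
the disjoint union of the cylinders of the `π : Fin (m+1) → Λ` with `π_0 = x`, `π_m = x`, `cnt (exN π) m = i` (take `π k = X_k + x`); the condition `cnt (exN π) k < N` holds since
`cnt ≤ k < m ≤ M < N`; and `m ≤ M ≤ N card Λ`. -/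
def VGE_stmt : Prop := ∀ (d : ℕ) (Ω : Type u) (_ : MeasurableSpace Ω) (P : Measure (Env d))
  [IsProbabilityMeasure P] (μ : Measure Ω) [IsProbabilityMeasure μ] (env : Ω → Env d)
  (X : ℕ → Ω → Site d), IsERW P μ env X → (∀ᵐ ω ∂P, IsCookieEnv ω) → (∀ x, P.map (shift x) = P) →
  ∀ (Λ : Finset (Site d)) (N M : ℕ) (x : Λ) (i : ℕ), Q M (x : Site d) ⊆ Λ → M < N →
  μ (⋃ m ∈ Finset.range (M + 1), AtV X i m) ≤ ∫⁻ ω, ENNReal.ofReal (vis (arrW ω Λ) N x i) ∂P

/-- PACKET SM3 (may assume UPR, VGE, VMS, QQQ, PR1).  `d ≥ 3`: bounded expected number of visits.  Fix `M`; `R = 2 M`, `N = M + 1`, `Λ = Q R 0`.  For `x ∈ Q M 0`: `Q M x ⊆ Λ`, so by VGE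
`∑_{i ≤ N} μ (⋃_{m≤M} AtV X i m) ≤ ∫⁻ ∑_{i≤N} vis i`.  Sum over `x ∈ Q M 0 ⊆ Λ` (the other terms are `≥ 0`) and UPR (for a.e. `ω`, `Okk κ ω`):
`card (Q M 0) ∑_i μ(..) ≤ C card (Q (2M) 0) ≤ C 2^d card (Q M 0)`. -/
def SM3_stmt : Prop := ∀ (d : ℕ), 3 ≤ d → ∀ κ : ℝ, 0 < κ → ∃ C : ℝ, 0 ≤ C ∧
  ∀ (Ω : Type u) (_ : MeasurableSpace Ω) (P : Measure (Env d))
  [IsProbabilityMeasure P] (μ : Measure Ω) [IsProbabilityMeasure μ] (env : Ω → Env d)
  (X : ℕ → Ω → Site d), IsERW P μ env X → (∀ᵐ ω ∂P, Okk κ ω) → (∀ x, P.map (shift x) = P) →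
  ∀ M : ℕ, ∑ i ∈ Finset.range (M + 2), μ (⋃ m ∈ Finset.range (M + 1), AtV X i m) ≤ ENNReal.ofReal C

/-- PACKET FV3 (may assume SM3).  For every `w`: `∑_{i ≤ M+1} 1(w ∈ ⋃_{m≤M} AtV X i m) = #{m ≤ M : X_m w = 0}` (the times `m` with `X_m = 0` are numbered by `pastVisits`).  So
`∫⁻ #{m ≤ M : X_m = 0} ≤ C` for all `M`, and by monotone convergence `∫⁻ ∑_m 1(X_m = 0) ≤ C < ∞`: almost surely finitely many visits of `0`.  Then, as in `ERW/TransientAll.lean` (or directly from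
`IsERW.io_step` and `forall_of_step`), under UEL every site is visited finitely often a.s., and `‖X_n‖ → ∞` (finite balls). -/
def FV3_stmt : Prop := ∀ (d : ℕ), 3 ≤ d → ∀ κ : ℝ, 0 < κ →
  ∀ (Ω : Type u) (_ : MeasurableSpace Ω) (P : Measure (Env d))
  [IsProbabilityMeasure P] (μ : Measure Ω) [IsProbabilityMeasure μ] (env : Ω → Env d)
  (X : ℕ → Ω → Site d), IsERW P μ env X → (∀ᵐ ω ∂P, Okk κ ω) → (∀ x, P.map (shift x) = P) →
  Transient μ X

/-- PACKET FV2 (may assume LWR, VLE, VMS, PR1, QQQ).  The plane.  Fix `J` and `ρ > 0`, and `R`, `N` from LWR, `Λ = Q R 0`.  By VLE, `∫ vis J ≤ μ (AtI X J)` for each `x ∈ Λ`; sum: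
`card Λ (1 - μ (AtI X J)) ≤ ∑_x ∫ (1 - vis J) ≤ ρ card Λ`.  So `μ (AtI X J) = 1` for all `J` (`AtI X J` measurable): almost surely for every `J` there is a time `m ≥ J` with `X_m = 0`
(`pastVisits = J` needs `m ≥ J`), so `0` is visited infinitely often; then every site, by `IsERW.io_step` (UEL) and `forall_of_step` (as in the earlier recurrence theorems, e.g.
`ERW/PlaneMain.lean`). -/
def FV2_stmt : Prop := ∀ κ : ℝ, 0 < κ →
  ∀ (Ω : Type u) (_ : MeasurableSpace Ω) (P : Measure (Env 2))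
  [IsProbabilityMeasure P] (μ : Measure Ω) [IsProbabilityMeasure μ] (env : Ω → Env 2)
  (X : ℕ → Ω → Site 2), IsERW P μ env X → (∀ᵐ ω ∂P, Okk κ ω) → (∀ x, P.map (shift x) = P) →
  Recurrent μ X

/-- PACKET STI.  (IID) implies stationarity.  `P` is the product measure of its marginals (`iIndepFun_iff_map_fun_eq_infinitePi_map` / `Measure.infinitePi`, or a π-system argument with finite
cylinders: `P` and `P.map (shift x)` agree on the cylinders `⋂_{z∈s} {ω z ∈ B_z}`, by independence and identical distribution both are `∏_{z∈s} P(ω 0 ∈ B_z)`;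
`MeasureTheory.ext_of_generate_finite`, `generateFrom_pi`/`isPiSystem_squareCylinders`). -/
def STI_stmt : Prop := ∀ (d : ℕ) (P : Measure (Env d)) [IsProbabilityMeasure P], IID P →
  ∀ x, P.map (shift x) = P

end Pool.Agent.Helper99.WP
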