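import Pool.Agent.Helper99.WP.Stat

/-!
# WP, part W: cycle popping and determinants (exact statements of the packets)

Notation in the proofs: `c_n = top ξ n`; `1_C` the indicator of `C`; `pop n C = n + 1_C`.
-/

open Finset

namespace Pool.Agent.Helper99.WP

open Pool.Agent.Helper99.ERW

/-- PACKET DIA.  Diamond property.  `m = n + 1_C`, `q = n + 1_{C'}`, both `C`, `C'` permuted by `c = c_n` (`c` maps `C` onto `C`, a finite set, hence is injective on `C`).
`C ∩ C'` is mapped into itself, injectively, so onto itself.  `E = C' \ C`: if `y ∈ E` and `c y = some z`, then `z ∈ C'`, and `z ∈ C` would give `z ∈ C ∩ C'`, `z = c y'` with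
`y' ∈ C ∩ C'`, and `y = y'` by injectivity on `C'`, a contradiction.  If `z ∈ E`, `z = c y` with `y ∈ C'`, and `y ∉ C`.  So `E` is empty or permuted by `c`, and `c_m = c` on `E`
(as `m = n` off `C`).  Same for `E' = C \ C'`.  `s = n + 1_{C ∪ C'} = m + 1_E = q + 1_{E'}`. -/
def DIA_stmt : Prop := ∀ (V : Type) [DecidableEq V] (ξ : V → ℕ → Option V) (n m q : V → ℕ),
  Step ξ n m → Step ξ n q →
    ∃ s, Relation.ReflGen (Step ξ) m s ∧ Relation.ReflTransGen (Step ξ) q s

/-- PACKET CON (may assume DIA).  `Relation.church_rosser`: `n` and `m` have a common successor `s`; from an acyclic `n` there is no step, so `s = n`.  The second claim follows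
(`n →* m` and `n` terminal). -/
def CON_stmt : Prop := ∀ (V : Type) [DecidableEq V] (ξ : V → ℕ → Option V) (n m : V → ℕ),
  (IsTerm ξ n → Reach ξ 0 m → Reach ξ m n) ∧ (IsTerm ξ n → IsTerm ξ m → n = m)

/-- PACKET TRM (may assume CON).  (1) induction, `n ≤ pop n C`.  (2) induction: a step at `y` needs `ξ y (n y) ≠ none`, so `n y < N` before the step.  (3) among the states reachable
from `0` (their sums `∑ m y ≤ N * card V`, by (2)) take one with maximal sum: it is acyclic, because a step increases the sum.  (4) `nst` is such a state (`Classical.choose_spec`),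
and `ext a` satisfies `Trunc N`. -/
def TRM_stmt : Prop := ∀ (V : Type) [Fintype V] [DecidableEq V] (N : ℕ),
  (∀ (ξ : V → ℕ → Option V) (n m : V → ℕ), Reach ξ n m → n ≤ m) ∧
  (∀ (ξ : V → ℕ → Option V) (m : V → ℕ), Trunc N ξ → Reach ξ 0 m → ∀ y, m y ≤ N) ∧
  (∀ (ξ : V → ℕ → Option V), Trunc N ξ → IsTerm ξ (nst ξ)) ∧
  ∀ a : V → Fin N → Option V, Trunc N (ext a) ∧ IsTerm (ext a) (nst (ext a)) ∧ ∀ y, nst (ext a) y ≤ N

/-- PACKET LOC.  Induction on the chain of steps, all intermediate states `m` satisfy `m ≤ n`, and the step at `m` by `C` uses only `ξ y (m y)` with `y ∈ C`, `m y < n y`.  (Prove by induction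
from the last step: `Reach ξ 0 m`, `Step ξ m n`; the agreement below `n` implies the one below `m ≤ n`; `IsCyc (top ξ m) C` only involves the values of `top ξ m` on `C`.) -/
def LOC_stmt : Prop := ∀ (V : Type) [DecidableEq V] (ξ ξ' : V → ℕ → Option V) (n : V → ℕ),
  Reach ξ 0 n → (∀ y k, k < n y → ξ y k = ξ' y k) → Reach ξ' 0 n

/-- PACKET FRZ (may assume CON, TRM, LOC).  Freezing `x` at level `i`.  Let `ξ' y k = none` if `y = x` and `i ≤ k`, and `ξ' y k = ξ y k` otherwise; `Trunc N ξ'`.  If `n x = i` then
`Reach ξ 0 n ↔ Reach ξ' 0 n` (LOC, the stacks agree below `n`) and `top ξ' n = Function.update (top ξ n) x none`.  So the states in question are the `n` with `IsTerm ξ' n` and `n x = i`: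
uniqueness is CON for `ξ'`.  Existence gives `Reach ξ n (nst ξ)` (CON), so `i = n x ≤ nst ξ x` (TRM).  Conversely let `i ≤ nst ξ x` and `n' = nst ξ'` (TRM).  `n' x ≤ i` (a step at `x` needs
`ξ' x (m x) ≠ none`, i.e. `m x < i`).  If `n' x < i`, then `Reach ξ 0 n'` by LOC and `top ξ n' = top ξ' n'` is acyclic, so `n' = nst ξ` by CON, contradicting `i ≤ nst ξ x`.  So `n' x = i`. -/
def FRZ_stmt : Prop := ∀ (V : Type) [Fintype V] [DecidableEq V] (N : ℕ) (ξ : V → ℕ → Option V) (x : V)
  (i : ℕ), Trunc N ξ →
  ((∃ n, Reach ξ 0 n ∧ n x = i ∧ Acyc (Function.update (top ξ n) x none)) ↔ i ≤ nst ξ x) ∧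
  ∀ n m, (Reach ξ 0 n ∧ n x = i ∧ Acyc (Function.update (top ξ n) x none)) →
    (Reach ξ 0 m ∧ m x = i ∧ Acyc (Function.update (top ξ m) x none)) → n = m

/-- PACKET WLA.  Loop erasure of the walker: at time `t`, as long as it is alive at `y`, there is a simple path `l` from `x` to `y` and a state `n` reachable by popping such that the used
arrows are `n` plus one for the sites of `l` other than `y`.  Induction on `t` (`t = 0`: `l = [x]`, `n = 0`).  Step: `v y = n y`, the arrow used is `ξ y (n y) = some u` (the walker stays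
alive).  If `u ∉ l`: take `l ++ [u]` and the same `n`; `Function.update v y (v y + 1) = n + 1_l`.  If `u ∈ l`, write `l = l1 ++ u :: l2` (the last element is `y`): `C = u :: l2` is permuted by
`top ξ n` (a cycle), take `n' = pop n C` and the path `l1 ++ [u]`: `n + 1_l = n' + 1_{l1}`, and the chain condition for `l1` concerns sites off `C` where `n' = n`. -/
def WLA_stmt : Prop := ∀ (V : Type) [DecidableEq V] (ξ : V → ℕ → Option V) (x y : V) (t : ℕ),
  (wk ξ x t).1 = some y → ∃ (l : List V) (n : V → ℕ), l.Nodup ∧ l.head? = some x ∧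
    l.getLast? = some y ∧ Reach ξ 0 n ∧ l.IsChain (fun u u' => ξ u (n u) = some u') ∧
    ∀ u, (wk ξ x t).2 u = n u + if u ∈ l ∧ u ≠ y then 1 else 0

/-- PACKET WLB (may assume CON, TRM, WLA).  (1) While the walker is alive at time `t`, `∑ u, (wk ξ x t).2 u = t` and each `(wk ξ x t).2 u ≤ N` (all used arrows were different from `none`, so
their levels are `< N`): so `t ≤ N * card V`.  (2) Take the last time the walker is alive, at `y`, with `l`, `n` of WLA: `ξ y (n y) = none` (`(wk ξ x t).2 y = n y`).  Afterwards the used arrows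
are `n + 1_l`.  If `Reach ξ n m` then `m = n` on `l` (induction: if `C` is permuted by `c_m` and `c_m = c_n` on `l`, then no element of `l` is in `C`: the last one is mapped to `none`, and each
other one is mapped by the chain condition to the next one; downward induction along the list).  With CON: `nst ξ x = n x` and the walker used `n x + 1` arrows of `x ∈ l`.  (3) is immediate
(the state does not change after absorption). -/
def WLB_stmt : Prop := ∀ (V : Type) [Fintype V] [DecidableEq V] (N : ℕ) (ξ : V → ℕ → Option V) (x : V),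
  Trunc N ξ → (∀ t, N * Fintype.card V < t → (wk ξ x t).1 = none) ∧
    ∀ t, (wk ξ x t).1 = none → (wk ξ x t).2 x = nst ξ x + 1

/-- PACKET DET.  Functional matrices.  If `C` is permuted by `c`, the rows of `C` of the matrix add up to zero (the indicator of `C` is in the left kernel: `Matrix.vecMul`,
`Matrix.exists_vecMul_eq_zero_iff`), so the determinant is `0`.  If `c` is acyclic let `T` be the matrix of `c`; then `T` is nilpotent: for every `y` the orbit `y, c y, c (c y), ...` reaches
`none` within `card V` steps (otherwise it repeats a site and gives a cycle), so `T ^ card V = 0`; and `det (1 - T) = 1` for nilpotent real `T` (e.g. order the sites by the time `r y` to reach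
`none`: `1 - T` is block triangular for `r` with identity blocks, `Matrix.BlockTriangular.det`; or the characteristic polynomial of a nilpotent matrix is `X ^ card V`). -/
def DET_stmt : Prop := ∀ (V : Type) [Fintype V] [DecidableEq V] (c : V → Option V),
  (Acyc c → (Matrix.of fun y z : V => (if y = z then (1 : ℝ) else 0) -
    if c y = some z then 1 else 0).det = 1) ∧
  (¬ Acyc c → (Matrix.of fun y z : V => (if y = z then (1 : ℝ) else 0) -
    if c y = some z then 1 else 0).det = 0)

/-- PACKET MTT (may assume DET).  Matrix tree theorem.  Row `y` of `1 - Tmat w` is `∑ c : Option V, w y c • (e_y - e_c)` with `e_none = 0` (as `∑ c, w y c = 1`).  The determinant is multilinear in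
the rows (`Matrix.detRowAlternating`, `MultilinearMap.map_sum`, `MultilinearMap.map_smul_univ`): it is the sum over `c : V → Option V` of `∏ y, w y (c y)` times the determinant of DET. -/
def MTT_stmt : Prop := ∀ (V : Type) [Fintype V] [DecidableEq V] (w : V → Option V → ℝ),
  (∀ y, ∑ c, w y c = 1) → (1 - Tmat w).det = DD w

/-- PACKET CRM (may assume MTT).  Let `w'` be `w` with the row of `x` replaced by the point mass at `none`.  Summing first over `c x` (`∑ c, w x c = 1`; the event does not depend on `c x`):
`DX w x = DD w' = (1 - Tmat w').det`, and `1 - Tmat w'` is `1 - Tmat w` with the row `x` replaced by `Pi.single x 1`: its determinant is `Matrix.adjugate (1 - Tmat w) x x`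
(`Matrix.adjugate_apply`).  And `(1 - Tmat w)⁻¹ = det⁻¹ • adjugate` with `det = DD w ≠ 0`. -/
def CRM_stmt : Prop := ∀ (V : Type) [Fintype V] [DecidableEq V] (w : V → Option V → ℝ) (x : V),
  (∀ y, ∑ c, w y c = 1) → DD w ≠ 0 → DX w x = DD w * Gmat w x x

/-- PACKET IND.  Independence for finite products: `(ι → α) ≃ ({i // i ∈ S} → α) × ({i // i ∉ S} → α)` (`Equiv.piEquivPiSubtypeProd`), the product of the weights factorizes, `f` depends on the
first component, `g` on the second one, and the total mass of each component is `1` (`Finset.prod_univ_sum` / `Fintype.piFinset_univ`). -/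
def IND_stmt : Prop := ∀ (ι α : Type) [Fintype ι] [DecidableEq ι] [Fintype α] (w : ι → α → ℝ),
  (∀ i, ∑ a, w i a = 1) → ∀ (S : Finset ι) (f g : (ι → α) → ℝ),
  (∀ a b : ι → α, (∀ i ∈ S, a i = b i) → f a = f b) →
  (∀ a b : ι → α, (∀ i, i ∉ S → a i = b i) → g a = g b) →
  ∑ a : ι → α, (∏ i, w i (a i)) * (f a * g a) =
    (∑ a : ι → α, (∏ i, w i (a i)) * f a) * ∑ a : ι → α, (∏ i, w i (a i)) * g a

/-- PACKET FAC (may assume LOC, IND).  The event `Reach (ext a) 0 n` depends only on the arrows `a y k` with `k < n y` (LOC twice), the top configuration `top (ext a) n` only on `a y (n y)`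
(`n y < N`; it is `none` if `n y = N`).  Apply IND with `ι = V × Fin N` (uncurry: `∏ y, ∏ k, F y k = ∏ (y, k), F y k`, `Fintype.prod_prod_type`) and `S` the pairs with `k < n y`.  The second
factor: `∑ a, prb W N a * g (top (ext a) n) = ∑ c, (∏ y, rowW W N n y (c y)) * g c`: group the `a` by `c = top (ext a) n`, i.e. show for every `c` that
`∑ a, prb W N a * (if top (ext a) n = c then 1 else 0) = ∏ y, rowW W N n y (c y)` (product over `y` of sums over `a y`, `Finset.prod_univ_sum`; for `n y < N`
only the coordinate `(y, n y)` is constrained, for `n y = N` the constraint is `c y = none`). -/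
def FAC_stmt : Prop := ∀ (V : Type) [Fintype V] [DecidableEq V] (W : V → ℕ → Option V → ℝ) (N : ℕ)
  (n : V → ℕ) (g : (V → Option V) → ℝ), IsW W → (∀ y, n y ≤ N) →
  (open Classical in ∑ a : V → Fin N → Option V, prb W N a *
    ((if Reach (ext a) 0 n then 1 else 0) * g (top (ext a) n))) =
  PE W N n * ∑ c : V → Option V, (∏ y, rowW W N n y (c y)) * g c

/-- PACKET KEY (may assume CON, TRM, FRZ, CRM, FAC).  THE KEY IDENTITY.  Let `𝓝` be the finite set of the `n` with `n y ≤ N` for all `y`.  For every `a`, by FRZ (and TRM: all reachable states are in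
`𝓝`), `1(i ≤ nst x) = ∑_{n∈𝓝, n x = i} 1(Reach (ext a) 0 n) 1(Acyc (update (top (ext a) n) x none))` (at most one term, by uniqueness).  Multiply by `prb`, sum over `a`, FAC with
`g c = 1(Acyc (update c x none))`: `vis W N x i = ∑_{n∈𝓝, n x = i} PE n · DX (rowW W N n) x`.  On the other side, `nst (ext a) = n` iff `Reach (ext a) 0 n` and `Acyc (top (ext a) n)` (TRM, CON):
the right side is `∑_{n∈𝓝, n x = i} PE n · DD (rowW W N n) · Gmat (rowW W N n) x x` (FAC with `g c = 1(Acyc c)`).  CRM (rows of `rowW` sum to `1`). -/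
def KEY_stmt : Prop := ∀ (V : Type) [Fintype V] [DecidableEq V] (W : V → ℕ → Option V → ℝ) (N : ℕ)
  (x : V) (i : ℕ), IsW W → (∀ n : V → ℕ, (∀ y, n y ≤ N) → DD (rowW W N n) ≠ 0) →
  vis W N x i = ∑ a : V → Fin N → Option V, prb W N a *
    if nst (ext a) x = i then Gmat (rowW W N (nst (ext a))) x x else 0

/-- PACKET PR1.  `prb` is a probability: `Finset.prod_univ_sum` twice; then `vis` is between `0` and `1`, decreasing in `i`, `1` for `i = 0`, and `0` for `i > N` (may assume TRM: `nst ≤ N`). -/
def PR1_stmt : Prop := ∀ (V : Type) [Fintype V] [DecidableEq V] (W : V → ℕ → Option V → ℝ) (N : ℕ),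
  IsW W → (∀ a, 0 ≤ prb W N a) ∧ ∑ a : V → Fin N → Option V, prb W N a = 1 ∧
  ∀ x, vis W N x 0 = 1 ∧ (∀ i, 0 ≤ vis W N x i ∧ vis W N x i ≤ 1 ∧ vis W N x (i + 1) ≤ vis W N x i) ∧
    ∀ i, N < i → vis W N x i = 0

/-- PACKET FOL.  The walker follows the path `π` up to time `m` iff the arrows are right.  Prove by induction on `m`, simultaneously, that if it follows `π` up to time `m`, then the number of used
arrows of `y` is the number of `r < m` with `π r = y` (in particular `cnt π m` for `y = π m`). -/
def FOL_stmt : Prop := ∀ (V : Type) [DecidableEq V] (ξ : V → ℕ → Option V) (x : V) (π : ℕ → V) (m : ℕ),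
  ((∀ k ≤ m, (wk ξ x k).1 = some (π k)) ↔
    (π 0 = x ∧ ∀ k < m, ξ (π k) (cnt π k) = some (π (k + 1)))) ∧
  ((∀ k ≤ m, (wk ξ x k).1 = some (π k)) →
    ∀ y, (wk ξ x m).2 y = ((Finset.range m).filter (fun r => π r = y)).card)

/-- PACKET FPR.  Probability that given arrows are right.  If `cnt π k ≥ N` for some `k < m`, the arrow is `none`: both sides are `0`.  Otherwise the pairs `(π k, cnt π k)`, `k < m`, are
distinct (`j < k`, `π j = π k` gives `cnt π j < cnt π k`), so the event constrains distinct coordinates: write `prb · 1(event)` as `∏ y, ∏ k, F y k (a y k)` with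
`F y k c = W y k c · (if (y,k) = (π j, cnt π j) for a j < m then 1(c = some (π (j+1))) else 1)`, exchange sum and product (`Finset.prod_univ_sum`); each unconstrained factor sums to `1`. -/
def FPR_stmt : Prop := ∀ (V : Type) [Fintype V] [DecidableEq V] (W : V → ℕ → Option V → ℝ) (N : ℕ)
  (π : ℕ → V) (m : ℕ), IsW W →
  (∑ a : V → Fin N → Option V, prb W N a *
    if ∀ k < m, ext a (π k) (cnt π k) = some (π (k + 1)) then 1 else 0) =
  if ∀ k < m, cnt π k < N then ∏ k ∈ Finset.range m, W (π k) (cnt π k) (some (π (k + 1))) else 0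

/-- PACKET VEX (may assume TRM, WLB, FOL, FPR).  Expansion of `vis` over paths.  For every `a`: `i ≤ nst (ext a) x` iff the walker uses at least `i + 1` arrows of `x` (WLB (2)) iff there is a time `m`
with `(wk (ext a) x m).1 = some x` and `(wk (ext a) x m).2 x = i` (the number of used arrows of `x` grows by one exactly at the times spent at `x`), and this `m` is unique and `≤ N * card V`
(WLB (1)).  At an alive time `m` there is exactly one `π : Fin (m+1) → V` followed up to time `m` (with `exN π k = π k` for `k ≤ m`).  So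
`1(i ≤ nst x) = ∑_{m ≤ N card V} ∑_{π, π_0 = x, π_m = x, cnt (exN π) m = i} 1(walker follows π up to m)` (FOL: `(wk ..).2 x = cnt (exN π) m` as `π_m = x`).  Take expectations, FOL and FPR. -/
def VEX_stmt : Prop := ∀ (V : Type) [Fintype V] [DecidableEq V] (W : V → ℕ → Option V → ℝ) (N : ℕ)
  (x : V) (i : ℕ), IsW W →
  vis W N x i = ∑ m ∈ Finset.range (N * Fintype.card V + 1), ∑ π : Fin (m + 1) → V,
    if exN π 0 = x ∧ exN π m = x ∧ cnt (exN π) m = i ∧ ∀ k < m, cnt (exN π) k < N then
      ∏ k ∈ Finset.range m, W (exN π k) (cnt (exN π) k) (some (exN π (k + 1))) else 0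

end Pool.Agent.Helper99.WP
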