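import Pool.Agent.Helper99.WP.GoalsE

/-!
# WP: assembly of the main theorem from the last packets
-/

open Finset MeasureTheory ProbabilityTheory Filter

namespace Pool.Agent.Helper99.WP

open Pool.Agent.Helper99.ERW

universe u

theorem assemble (h2 : FV2_stmt.{u}) (h3 : FV3_stmt.{u}) (hI : STI_stmt)
    {d : ℕ} (P : Measure (Env d)) [IsProbabilityMeasure P]
    (hcookie : ∀ᵐ ω ∂P, IsCookieEnv ω) (hbal : ∀ᵐ ω ∂P, IsBalanced ω) (hE : UEL P)
    (hS : IID P ∨ ∀ x, P.map (shift x) = P)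
    {Ω : Type u} [MeasurableSpace Ω] (μ : Measure Ω) [IsProbabilityMeasure μ]
    (env : Ω → Env d) (X : ℕ → Ω → Site d) (hX : IsERW P μ env X) :
    (d = 2 → Recurrent μ X) ∧ (3 ≤ d → Transient μ X) := by
  obtain ⟨κ, hκ, hE⟩ := hE
  have hO : ∀ᵐ ω ∂P, Okk κ ω := by
    filter_upwards [hcookie, hbal, hE] with ω h1 h2 h3
    exact ⟨h1, h2, h3⟩
  have hst : ∀ x, P.map (shift x) = P := by
    rcases hS with h | h
    · exact hI d P h
    · exact h
  constructor
  · intro hd
    subst hd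
    exact h2 κ hκ Ω inferInstance P μ env X hX hO hst
  · intro hd
    exact h3 d hd κ hκ Ω inferInstance P μ env X hX hO hst

end Pool.Agent.Helper99.WP
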