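import Pool.Agent.Helper99.WP.Assemble
import Pool.Agent.Helper75.WP.DIA
import Pool.Agent.Helper88.WP.Conf
import Pool.Agent.Helper3.WP.TRM
import Pool.Agent.Helper69.WP.LOC
import Pool.Agent.Helper87.WP.FRZ
import Pool.Agent.Helper67.WP.WLA
import Pool.Agent.Helper9.WP.WLB
import Pool.Agent.Helper90.WP.DET
import Pool.Agent.Helper55.WP.MTT
import Pool.Agent.Helper46.WP.CRM
import Pool.Agent.Helper61.WP.IND
import Pool.Agent.Helper79.WP.FAC
import Pool.Agent.Helper61.WP.KEY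
import Pool.Agent.Helper31.WP.PR1
import Pool.Agent.Helper51.WP.FOL
import Pool.Agent.Helper24.WP.FPR
import Pool.Agent.Helper60.WP.VEX
import Pool.Agent.Helper65.WP.MXP
import Pool.Agent.Helper17.WP.GEX
import Pool.Agent.Helper11.WP.GCM
import Pool.Agent.Helper86.WP.QQQ
import Pool.Agent.Helper81.WP.ABP
import Pool.Agent.Helper31.WP.EXT
import Pool.Agent.Helper20.WP.BAR
import Pool.Agent.Helper71.WP.DNS
import Pool.Agent.Helper87.WP.CMP
import Pool.Agent.Helper50.WP.CZS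
import Pool.Agent.Helper1.WP.OCC
import Pool.Agent.Helper8.WP.HIT
import Pool.Agent.Helper38.WP.HRN
import Pool.Agent.Helper1.WP.SHL
import Pool.Agent.Helper89.WP.TEL
import Pool.Agent.Helper87.WP.SCU
import Pool.Agent.Helper59.WP.D3
import Pool.Agent.Helper99.WPP.SCL
import Pool.Agent.Helper42.WP.D2
import Pool.Agent.Helper71.WP.LN1
import Pool.Agent.Helper90.WP.UPR
import Pool.Agent.Helper86.WP.DCY
import Pool.Agent.Helper13.WP.LWR
import Pool.Agent.Helper99.WPP.ARW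
import Pool.Agent.Helper5.WP.VMS
import Pool.Agent.Helper41.WP.VCY
import Pool.Agent.Helper17.WP.VLE
import Pool.Agent.Helper82.WP.VGE
import Pool.Agent.Helper89.WP.SM3
import Pool.Agent.Helper71.WP.FV3
import Pool.Agent.Helper97.WP.FV2
import Pool.Agent.Helper38.WP.STI

/-!
# WP: the main theorem

All packets of the project put together.
-/

open Finset MeasureTheory ProbabilityTheory Filter

namespace Pool.Agent.Helper99.WP.Main

open Pool.Agent.Helper99.WP Pool.Agent.Helper99.ERW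

universe u

theorem pDIA : DIA_stmt := Pool.Agent.Helper75.WP.DIA 

theorem pCON : CON_stmt := Pool.Agent.Helper88.WP.CON pDIA

theorem pTRM : TRM_stmt := Pool.Agent.Helper3.WP.TRM 

theorem pLOC : LOC_stmt := Pool.Agent.Helper69.WP.LOC 

theorem pFRZ : FRZ_stmt := Pool.Agent.Helper87.WP.FRZ pCON pTRM pLOC

theorem pWLA : WLA_stmt := Pool.Agent.Helper67.WP.WLA 

theorem pWLB : WLB_stmt := Pool.Agent.Helper9.WP.WLB pCON pTRM pWLA

theorem pDET : DET_stmt := Pool.Agent.Helper90.WP.DET 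

theorem pMTT : MTT_stmt := Pool.Agent.Helper55.WP.MTT pDET

theorem pCRM : CRM_stmt := Pool.Agent.Helper46.WP.CRM pMTT

theorem pIND : IND_stmt := Pool.Agent.Helper61.WP.IND 

theorem pFAC : FAC_stmt := Pool.Agent.Helper79.WP.FAC pLOC pIND

theorem pKEY : KEY_stmt := Pool.Agent.Helper61.WP.KEY pCON pTRM pFRZ pCRM pFAC

theorem pPR1 : PR1_stmt := Pool.Agent.Helper31.WP.PR1 pTRM

theorem pFOL : FOL_stmt := Pool.Agent.Helper51.WP.FOL 

theorem pFPR : FPR_stmt := Pool.Agent.Helper24.WP.FPR 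

theorem pVEX : VEX_stmt := Pool.Agent.Helper60.WP.VEX pTRM pWLB pFOL pFPR

theorem pMXP : MXP_stmt := Pool.Agent.Helper65.WP.MXP 

theorem pGEX : GEX_stmt := Pool.Agent.Helper17.WP.GEX pMXP

theorem pGCM : GCM_stmt := Pool.Agent.Helper11.WP.GCM pMXP pGEX

theorem pQQQ : QQQ_stmt := Pool.Agent.Helper86.WP.QQQ 

theorem pABP : ABP_stmt := Pool.Agent.Helper81.WP.ABP pGEX pGCM pQQQ

theorem pEXT : EXT_stmt := Pool.Agent.Helper31.WP.EXT pGEX pGCM pQQQ

theorem pBAR : BAR_stmt := Pool.Agent.Helper20.WP.BAR pMXP pQQQ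

theorem pDNS : DNS_stmt := Pool.Agent.Helper71.WP.DNS pGEX pGCM pQQQ pABP pEXT pBAR

theorem pCMP : CMP_stmt := Pool.Agent.Helper87.WP.CMP pMXP pGEX pGCM pQQQ pEXT pDNS

theorem pCZS : CZS_stmt := Pool.Agent.Helper50.WP.CZS pGCM pQQQ pEXT pCMP

theorem pOCC : OCC_stmt := Pool.Agent.Helper1.WP.OCC pGCM pQQQ pCZS

theorem pHIT : HIT_stmt := Pool.Agent.Helper8.WP.HIT pMXP pGEX pGCM pQQQ pEXT pOCC

theorem pHRN : HRN_stmt := Pool.Agent.Helper38.WP.HRN pQQQ pHIT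

theorem pSHL : SHL_stmt := Pool.Agent.Helper1.WP.SHL pGEX pGCM pQQQ pHIT pHRN

theorem pTEL : TEL_stmt := Pool.Agent.Helper89.WP.TEL pGEX pGCM

theorem pSCU : SCU_stmt := Pool.Agent.Helper87.WP.SCU pGEX pGCM pQQQ pEXT pHRN pTEL

theorem pD3 : D3_stmt := Pool.Agent.Helper59.WP.D3 pGCM pQQQ pEXT pSCU

theorem pSCL : SCL_stmt := Pool.Agent.Helper99.WPP.SCL pGCM pQQQ pOCC pSHL pTEL

theorem pD2 : D2_stmt := Pool.Agent.Helper42.WP.D2 pGCM pQQQ pSCL

theorem pLN1 : LN1_stmt := Pool.Agent.Helper71.WP.LN1 pMTT pMXP pGEX pGCM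

theorem pUPR : UPR_stmt := Pool.Agent.Helper90.WP.UPR pTRM pKEY pPR1 pLN1 pD3

theorem pDCY : DCY_stmt := Pool.Agent.Helper86.WP.DCY pTRM pKEY pPR1 pLN1 pGCM pEXT

theorem pLWR : LWR_stmt := Pool.Agent.Helper13.WP.LWR pTRM pKEY pPR1 pLN1 pDCY pD2

theorem pARW : ARW_stmt := Pool.Agent.Helper99.WPP.ARW 

theorem pVMS : VMS_stmt := Pool.Agent.Helper5.WP.VMS 

theorem pSHF : SHF_stmt := Pool.Agent.Helper99.WPP.SHF 

theorem pVCY : VCY_stmt.{u} := Pool.Agent.Helper41.WP.VCY pVEX pARW pSHF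

theorem pVLE : VLE_stmt.{u} := Pool.Agent.Helper17.WP.VLE pVCY

theorem pVGE : VGE_stmt.{u} := Pool.Agent.Helper82.WP.VGE pVCY

theorem pSM3 : SM3_stmt.{u} := Pool.Agent.Helper89.WP.SM3 pUPR pVGE pVMS pQQQ pPR1

theorem pFV3 : FV3_stmt.{u} := Pool.Agent.Helper71.WP.FV3 pSM3

theorem pFV2 : FV2_stmt.{u} := Pool.Agent.Helper97.WP.FV2 pLWR pVLE pVMS

theorem pSTI : STI_stmt := Pool.Agent.Helper38.WP.STI 

/-- Balanced excited random walks: recurrence in the plane and transience in higher dimensions. -/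
theorem main {d : ℕ} (P : Measure (Env d)) [IsProbabilityMeasure P]
    (hcookie : ∀ᵐ ω ∂P, IsCookieEnv ω) (hbal : ∀ᵐ ω ∂P, IsBalanced ω) (hE : UEL P)
    (hS : IID P ∨ ∀ x, P.map (shift x) = P)
    {Ω : Type u} [MeasurableSpace Ω] (μ : Measure Ω) [IsProbabilityMeasure μ]
    (env : Ω → Env d) (X : ℕ → Ω → Site d) (hX : IsERW P μ env X) :
    (d = 2 → Recurrent μ X) ∧ (3 ≤ d → Transient μ X) :=
  assemble pFV2 pFV3 pSTI P hcookie hbal hE hS μ env X hX

end Pool.Agent.Helper99.WP.Main
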