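import Pool.Agent.Helper99.ERW.Cylinder

/-!
# WP, definitions 1: cycle popping with stacks of arrows which are not identically distributed

`V` is a finite set of sites, `none` is the outside (the root).  The stack of arrows at `y` is `ξ y 0, ξ y 1, ...`.
-/

open Finset

namespace Pool.Agent.Helper99.WP

section popping

variable {V : Type*} [DecidableEq V]

/-- The nonempty set `C` of sites is permuted by the partial map `c` (a union of cycles). -/
def IsCyc (c : V → Option V) (C : Finset V) : Prop :=
  C.Nonempty ∧ (∀ y ∈ C, ∃ z ∈ C, c y = some z) ∧ ∀ z ∈ C, ∃ y ∈ C, c y = some z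

/-- No cycles: every site leads to the root. -/
def Acyc (c : V → Option V) : Prop := ∀ C : Finset V, ¬ IsCyc c C

/-- The top arrows after `n y` arrows have been removed at every site `y`. -/
def top (ξ : V → ℕ → Option V) (n : V → ℕ) : V → Option V := fun y => ξ y (n y)

/-- Remove one arrow at each site of `C`. -/
def pop (n : V → ℕ) (C : Finset V) : V → ℕ := fun y => if y ∈ C then n y + 1 else n y

/-- One cycle is popped. -/
def Step (ξ : V → ℕ → Option V) (n m : V → ℕ) : Prop := ∃ C, IsCyc (top ξ n) C ∧ m = pop n C

/-- `m` can be reached from `n` by popping. -/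
def Reach (ξ : V → ℕ → Option V) (n m : V → ℕ) : Prop := Relation.ReflTransGen (Step ξ) n m

/-- All arrows at the levels `≥ N` point to the root. -/
def Trunc (N : ℕ) (ξ : V → ℕ → Option V) : Prop := ∀ y k, N ≤ k → ξ y k = none

/-- `n` is the result of popping all cycles. -/
def IsTerm (ξ : V → ℕ → Option V) (n : V → ℕ) : Prop := Reach ξ 0 n ∧ Acyc (top ξ n)

open Classical in
/-- The numbers of popped arrows. -/
noncomputable def nst (ξ : V → ℕ → Option V) : V → ℕ :=
  if h : ∃ n, IsTerm ξ n then Classical.choose h else 0

/-- The walker: position (`none` when absorbed) and numbers of used arrows, at time `t`; at each step the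
walker at `y` uses the next arrow of the stack of `y`. -/
def wk (ξ : V → ℕ → Option V) (x : V) : ℕ → Option V × (V → ℕ)
  | 0 => (some x, 0)
  | t + 1 => match wk ξ x t with
    | (none, v) => (none, v)
    | (some y, v) => (ξ y (v y), Function.update v y (v y + 1))

end popping

section finite

variable {V : Type*} [Fintype V] [DecidableEq V]

/-- The stacks given by `N` levels of arrows, followed by arrows to the root. -/
def ext {N : ℕ} (a : V → Fin N → Option V) : V → ℕ → Option V :=
  fun y k => if h : k < N then a y ⟨k, h⟩ else none

/-- `W y k` is the law of the arrow number `k` of `y`. -/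
def IsW (W : V → ℕ → Option V → ℝ) : Prop := ∀ y k, (∀ c, 0 ≤ W y k c) ∧ ∑ c, W y k c = 1

/-- Probability of the arrows `a` (independent arrows). -/
noncomputable def prb (W : V → ℕ → Option V → ℝ) (N : ℕ) (a : V → Fin N → Option V) : ℝ :=
  ∏ y, ∏ k : Fin N, W y k (a y k)

/-- The law of the top arrow of `y` after `n y` arrows are removed. -/
noncomputable def rowW (W : V → ℕ → Option V → ℝ) (N : ℕ) (n : V → ℕ) (y : V) : Option V → ℝ :=
  if n y < N then W y (n y) else fun c => if c = none then 1 else 0

/-- Transition matrix of the static chain with the laws `w y`. -/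
def Tmat (w : V → Option V → ℝ) : Matrix V V ℝ := fun y z => w y (some z)

/-- Green function of the static chain. -/
noncomputable def Gmat (w : V → Option V → ℝ) : Matrix V V ℝ := (1 - Tmat w)⁻¹

open Classical in
/-- Probability that a random map with independent values `c y` of law `w y` has no cycle. -/
noncomputable def DD (w : V → Option V → ℝ) : ℝ :=
  ∑ c : V → Option V, (∏ y, w y (c y)) * if Acyc c then 1 else 0

open Classical in
/-- The same with the arrow of `x` replaced by an arrow to the root. -/
noncomputable def DX (w : V → Option V → ℝ) (x : V) : ℝ :=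
  ∑ c : V → Option V, (∏ y, w y (c y)) * if Acyc (Function.update c x none) then 1 else 0

open Classical in
/-- Probability that `n` is reached by popping. -/
noncomputable def PE (W : V → ℕ → Option V → ℝ) (N : ℕ) (n : V → ℕ) : ℝ :=
  ∑ a : V → Fin N → Option V, prb W N a * if Reach (ext a) 0 n then 1 else 0

/-- Probability that at least `i` arrows of `x` are popped. -/
noncomputable def vis (W : V → ℕ → Option V → ℝ) (N : ℕ) (x : V) (i : ℕ) : ℝ :=
  ∑ a : V → Fin N → Option V, prb W N a * if i ≤ nst (ext a) x then 1 else 0

end finite

end Pool.Agent.Helper99.WP
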