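import Pool.Agent.Helper99.WP.Pop

/-!
# WP, definitions 2: static balanced environments, cubes, Green functions
-/

open Finset

namespace Pool.Agent.Helper99.WP

open Pool.Agent.Helper99.ERW

variable {d : ℕ}

/-- The unit vector number `l`. -/
def ev (l : Fin d) : Site d := Pi.single l 1

/-- `p x l` is the probability of each of the two steps `± e_l` from `x`; all are at least `κ`. -/
def Ell (κ : ℝ) (p : Site d → Fin d → ℝ) : Prop := ∀ x, (∀ l, κ ≤ p x l) ∧ ∑ l, 2 * p x l = 1

/-- Generator of the static walk: mean of `u` over the neighbours of `x`, minus `u x`. -/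
noncomputable def lap (p : Site d → Fin d → ℝ) (u : Site d → ℝ) (x : Site d) : ℝ :=
  ∑ l, p x l * (u (x + ev l) + u (x - ev l) - 2 * u x)

/-- The cube of centre `y` and radius `r` (side `2 r + 1`). -/
noncomputable def Q (r : ℕ) (y : Site d) : Finset (Site d) :=
  Finset.Icc (fun l => y l - (r : ℤ)) (fun l => y l + (r : ℤ))

/-- All neighbours of points of `D` are in `D` or satisfy `S`. -/
def Bd (D : Finset (Site d)) (S : Site d → Prop) : Prop :=
  ∀ x ∈ D, ∀ l, (x + ev l ∉ D → S (x + ev l)) ∧ (x - ev l ∉ D → S (x - ev l))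

/-- `u` solves `- L u = f` in `D`, `u = 0` off `D`. -/
def IsSol (p : Site d → Fin d → ℝ) (D : Finset (Site d)) (f u : Site d → ℝ) : Prop :=
  (∀ x, x ∉ D → u x = 0) ∧ ∀ x ∈ D, lap p u x = - f x

open Classical in
/-- Green operator: expected sum of `f` along the static walk before the exit from `D`. -/
noncomputable def Gr (p : Site d → Fin d → ℝ) (D : Finset (Site d)) (f : Site d → ℝ) : Site d → ℝ :=
  if h : ∃ u, IsSol p D f u then Classical.choose h else 0

/-- Indicator function of a finite set. -/
noncomputable def ind (A : Finset (Site d)) (x : Site d) : ℝ := if x ∈ A then 1 else 0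

/-- `Gr p D (ind {y}) x`: expected number of visits to `y` before the exit from `D`, from `x`. -/
noncomputable def gg (p : Site d → Fin d → ℝ) (D : Finset (Site d)) (x y : Site d) : ℝ :=
  Gr p D (ind {y}) x

/-- The law of the arrow number `k` at `y` of the excited walk in `Λ` in the environment `ω`. -/
noncomputable def arrW (ω : Env d) (Λ : Finset (Site d)) (y : Λ) (k : ℕ) (c : Option Λ) : ℝ :=
  match c with
  | none => ∑ e : Dir d, if (y : Site d) + vec e ∈ Λ then 0 else ω y e k
  | some z => ∑ e : Dir d, if (y : Site d) + vec e = z then ω y e k else 0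

open Classical in
/-- The static environment given by the current cookies. -/
noncomputable def pst (ω : Env d) (Λ : Finset (Site d)) (n : Λ → ℕ) (y : Site d) (l : Fin d) : ℝ :=
  if h : y ∈ Λ then ω y (l, true) (n ⟨y, h⟩) else 1 / (2 * d)

/-- `κ`-elliptic balanced cookie environment. -/
def Okk (κ : ℝ) (ω : Env d) : Prop := IsCookieEnv ω ∧ IsBalanced ω ∧ ∀ z e i, κ ≤ ω z e i

/-- visit number `i + 1` to the origin takes place at time `m`. -/
def AtV {Ω : Type*} (X : ℕ → Ω → Site d) (i m : ℕ) : Set Ω :=
  {w | X m w = 0 ∧ pastVisits (fun k => X k w) m = i}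

/-- at least `i + 1` visits to the origin -/
def AtI {Ω : Type*} (X : ℕ → Ω → Site d) (i : ℕ) : Set Ω := ⋃ m, AtV X i m

/-- number of earlier visits of the path `π` to its position at time `k` -/
def cnt {V : Type*} [DecidableEq V] (π : ℕ → V) (k : ℕ) : ℕ :=
  ((Finset.range k).filter (fun r => π r = π k)).card

/-- the path with the given first `m + 1` positions, constant afterwards -/
def exN {V : Type*} {m : ℕ} (π : Fin (m + 1) → V) : ℕ → V := fun k => π ⟨min k m, by omega⟩

end Pool.Agent.Helper99.WP
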